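import Pool.Agent.helper17.HH.SpecB

/-!
# MP_07c750 (quantum unique ergodicity, weight 10), project HH (helper17): block A, analysis, and the end of the pure part, rows `hh:XXX`

From the integrals of `HAL_stmt` to the combinatorial data `BDT` of block B. `p = 4000 m`, `u1 = 1/400000`, `η = eta = 1/5000000` everywhere. `ps P u = Σ_(q ∈ P) e^(i q u)` (`helper52/IR/Spec.lean`).

RULES. Row `hh:XXX` (problem MP_07c750_an): file `Pool/Agent/<seat>/HH/XXX.lean`, `import Pool.Agent.helper80.HH.SpecA` (and what you need), `set_option autoImplicit false`, namespace `Pool.Agent.HH`, auxiliary lemmas prefixed `XXX_`, theorem `XXX_proof (h : YYY_stmt) .. : XXX_stmt` with the rows listed in `from` as hypotheses.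
No straight double quotes, no `convert`, `congr!`, `native_decide`. Useful proved lemmas: `Pool.Agent.IR.PAV_cont`, `PAV_ns`, `PAV_cosint`, `PAV_int`, `PAV_bd`, `PAV_om` in `helper15/IR/PAV.lean`. A doubtful statement: message to helper80 and helper17 at once.
-/

open MeasureTheory Set

set_option autoImplicit false

namespace Pool.Agent.HH

noncomputable section

open Classical in
/-- the cells (of length `1/N`) near the large values of `ps P` -/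
def Vs (P : Finset ℤ) (N : ℕ) (t : ℝ) : Finset ℤ := (Finset.Icc (-(20 * N : ℤ)) (20 * N)).filter fun k => ∃ u : ℝ, |u - k / N| ≤ 20 / N ∧ t ≤ ‖IR.ps P u‖

open Classical in
/-- the cells of length `1/L` of `Y ⊆ [0,1]` -/
def ac (L : ℕ) (Y : Set ℝ) : Finset ℤ := (Finset.Icc (0 : ℤ) L).filter fun a => ∃ v ∈ Y, ⌊v * L⌋ = a

open Classical in
/-- the pairs of cells with a large value of `ps P` near the dilated difference -/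
def gr (P : Finset ℤ) (L : ℕ) (s t : ℝ) (A : Finset ℤ) : Finset (ℤ × ℤ) := (A ×ˢ A).filter fun z => ∃ u : ℝ, |u - s * ((z.1 : ℝ) - z.2) / L| ≤ 8 / L ∧ t ≤ ‖IR.ps P u‖

/-- **Row AVI** (Gallagher's inequality = few large values; SHORT-MEDIUM; pure). For `k ∈ Vs P N t` choose `u k` with `t ≤ ‖ps P (u k)‖`, `|u k - k/N| ≤ 20/N`. `f = ps P`, `f'(u) = Σ i q e^(iqu)`, `I_k = [k/N - 20/N, k/N + 20/N]`. For `x, y ∈ I_k`: `‖f x‖² ≤ ‖f y‖² + 2 ∫_(I_k) ‖f‖ ‖f'‖ ≤ ‖f y‖² + ∫_(I_k) (N ‖f‖² + ‖f'‖²/N)`;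
average over `y ∈ I_k` (length `40/N`): `‖f (u k)‖² ≤ 2 N ∫_(I_k) ‖f‖² + (1/N) ∫_(I_k) ‖f'‖²`. Every point is in at most `41` of the `I_k`, and `I_k ⊆ [-40, 40]` (`N ≥ 1`). `∫_(|t| ≤ 40) ‖Σ_q c_q e^(iqt)‖² dt ≤ 42 π Σ ‖c_q‖²` (as `IR.PAV_bd`: integrate over `[-14π, 14π]`, orthogonality), for `c_q = 1` and for `c_q = i q`, `|q| ≤ C0 N`:
`Σ ‖c_q‖² ≤ C0² N² #P`. So `#Vs t² ≤ Σ_(k ∈ Vs) ‖f (u k)‖² ≤ 41 (84 π + 42 π C0²) N #P`. -/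
def AVI_stmt : Prop := ∀ C0 : ℝ, 1 ≤ C0 → ∃ C : ℝ, 1 ≤ C ∧ ∀ (P : Finset ℤ) (N : ℕ) (t : ℝ), 1 ≤ N → (∀ q ∈ P, |(q : ℝ)| ≤ C0 * N) → 0 ≤ t → ((Vs P N t).card : ℝ) * t ^ 2 ≤ C * N * P.card

/-- **Row ABG** (the energy and the graph; SHORT-MEDIUM; pure). First part: `Y` is the disjoint union of `Y_a = Y ∩ {⌊v L⌋ = a}`, `a ∈ ac L Y` (`Y ⊆ [0,1]`), of measure `≤ y2`. For `v ∈ Y_a`, `v' ∈ Y_a'` the number `u = s (v - v')` satisfies `|u - s (a - a')/L| ≤ s/L ≤ 8/L`; so `‖ps P u‖ ≤ #P ≤ F` always and `‖ps P u‖ < t` if `(a, a') ∉ gr`.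
`∫_Y ∫_Y = Σ_(a, a') ∫_(Y_a) ∫_(Y_a') ≤ #gr y2² F² + #(ac)² y2² t²`. Second part: `k = ⌊s a⌋ - ⌊s a'⌋`: `|k - s (a - a')| ≤ 1`, so `|u - k/L| ≤ 9/L`, `|k| ≤ 8 L + 1 ≤ 20 L`. -/
def ABG_stmt : Prop := (∀ (P : Finset ℤ) (L : ℕ) (s t y2 F : ℝ) (Y : Set ℝ), 1 ≤ L → 0 ≤ s → s ≤ 8 → 0 ≤ t → MeasurableSet Y → Y ⊆ Icc 0 1 → (P.card : ℝ) ≤ F → (∀ a : ℤ, volume.real (Y ∩ {v | ⌊v * L⌋ = a}) ≤ y2) →
    ∫ v in Y, ∫ v' in Y, ‖IR.ps P (s * (v - v'))‖ ^ 2 ≤ y2 ^ 2 * (F ^ 2 * (gr P L s t (ac L Y)).card + t ^ 2 * ((ac L Y).card : ℝ) ^ 2)) ∧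
  ∀ (P : Finset ℤ) (L : ℕ) (s t : ℝ) (A : Finset ℤ), 1 ≤ L → 0 ≤ s → s ≤ 8 → (∀ a ∈ A, 0 ≤ a ∧ a ≤ (L : ℤ)) → ∀ z ∈ gr P L s t A, ⌊s * z.1⌋ - ⌊s * z.2⌋ ∈ Vs P L t

/-- **Row ACV** (the cells of `Y`; SHORT-MEDIUM; pure). Every `a ∈ ac L Y` has a point `x ∈ Y` with `⌊x L⌋ = a`, so `a/L ≤ x < a/L + 1/L`, `1/L ≤ e^(-p)`. (1) the cell `a` is in `[a/L - 4 e^(-p), a/L + 4 e^(-p)]`: field `v1`. (2) `cl` for `i = 0`, `j = 4000`, `v = 1/2`: the numbers `⌊x e^p⌋` take at most `C e^((1/2+η)p)` values, and for each of them `a = ⌊x L⌋` takes at most `L e^(-p) + 2 ≤ C + 2` values.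
(3) `CA`: let `|a/L - v| ≤ e^(-im)`, so `|x - v| ≤ 2 e^(-im)`: `x` is within `e^(-im)` of `v - e^(-im)` or of `v + e^(-im)`: `cl` twice: `⌊x e^(jm)⌋` takes at most `2 C e^((1/2+η)(j-i)m)` values, and `⌊(a/L) e^(jm)⌋ ∈ {⌊x e^(jm)⌋, ⌊x e^(jm)⌋ - 1}` as `e^(jm)/L ≤ 1`: `C1 = 4 C`. -/
def ACV_stmt : Prop := ∀ (C : ℝ) (m L : ℕ) (Y : Set ℝ), 1 ≤ C → Real.exp (4000 * m) ≤ L → (L : ℝ) ≤ C * Real.exp (4000 * m) → GY C m Y →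
  (∀ a : ℤ, volume.real (Y ∩ {v | ⌊v * L⌋ = a}) ≤ C * Real.exp ((1 / 2 + eta) * (2 * (4000 * m)) - 3 * (4000 * m))) ∧
  ((ac L Y).card : ℝ) ≤ C * (C + 2) * Real.exp ((1 / 2 + eta) * (4000 * m)) ∧ CA (4 * C) m L (ac L Y)

/-- **Row AHK** (one bad `w`; MEDIUM (bookkeeping); from AVI, ABG, ACV). `θ = e^(-u1 p)`, `F = C e^((1/2+η)p)` (`STR.f0`: `#(P I) ≤ F`), `y0 = C e^((1/2+η)3p - 3p)` (`volume.real Y ≤ y0`, field `v0`), `y2 = C e^((1/2+η)2p - 3p)` (ACV), so `y0 = e^((1/2+η)p) y2`. `t = θ F/(2 C (C + 2))`, `V I = Vs (P I) L t`: AVI (`C0 = C`) with the constant `C''`: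
`#V I ≤ C'' L F/t² = C'' 4 C² (C+2)² L/(θ² F) ≤ C1 e^((1/2 - η + 2 u1)p)`. `s_I = κ om(w, X I) ∈ [0.35, 3.1]` (`IR.PAV_om`). `b_I` = the double integral, `√b_I ≤ y0 F` (the integrand is `≤ F²`). `A = ac L Y`, `B = {I ∈ S | θ y0 F ≤ √b_I}`, `R I = gr (P I) L s_I t A`. For `I ∈ B`: ABG (1): `#(R I) y2² F² ≥ θ² y0² F² - t² y2² #A² ≥ (3/4) θ² y0² F²`
since `#A ≤ C (C+2) y0/y2` (ACV (2)): `#(R I) ≥ (3/4) θ² e^((1+2η)p) ≥ (3/4) θ² #A²/(C (C+2))²`. If `#B < θ C1 e^((1+2η)p)` then `Σ_I √b_I ≤ #S θ y0 F + #B y0 F ≤ (C + C1) θ e^((1+2η)p) C² e^((-1+4η)p) = (C + C1) C² e^(-(u1 - 6η)p)`, `u1 - 6η = 1.3·10^(-6) > 10^(-6)`: for large `m` this is `< e^(-p/10^6)`, a contradiction.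
`B` is not empty (`θ C1 e^((1+2η)p) > 0`), so `#A² ≥ #(R I) ≥ (3/4) e^((1 + 2η - 2 u1)p)`, `e^((1/2-u1)p) ≤ 2 #A`. `C1 ≥ 4C`, `4 (C (C+2))²`, `4 C'' C² (C+2)² ..`. `CA (4C)` gives `CA C1`. -/
def AHK_stmt : Prop := ∀ C : ℝ, 1 ≤ C → ∃ (C1 : ℝ) (m0 : ℕ), C ≤ C1 ∧ ∀ (m L : ℕ) (S : Finset ℤ) (P : ℤ → Finset ℤ) (X : ℤ → ℝ), m0 ≤ m → Real.exp (4000 * m) ≤ L → (L : ℝ) ≤ C * Real.exp (4000 * m) →
  IR.STR S P X (C * Real.exp ((1 / 2 + eta) * (2 * (4000 * m)))) (C * Real.exp ((1 / 2 + eta) * (7999 * m))) (C * Real.exp ((1 / 2 + eta) * (4000 * m))) (Real.exp (-m)) → (∀ i ∈ S, ∀ q ∈ P i, |(q : ℝ)| ≤ C * L) →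
  ∃ V : ℤ → Finset ℤ, (∀ I ∈ S, ((V I).card : ℝ) ≤ C1 * Real.exp ((1 / 2 + 2 / 400000) * (4000 * m))) ∧ ∀ (w κ : ℝ) (Y : Set ℝ), |w| ≤ 1 / 16 → 1 / 2 ≤ κ → κ ≤ 2 → GY C m Y →
    Real.exp (-(4000 * m) / 1000000) < ∑ I ∈ S, Real.sqrt (∫ v in Y, ∫ v' in Y, ‖IR.ps (P I) (κ * IR.om w (X I) * (v - v'))‖ ^ 2) →
      ∃ (A B : Finset ℤ) (R : ℤ → Finset (ℤ × ℤ)), Real.exp ((1 / 2 - 1 / 400000) * (4000 * m)) ≤ C1 * A.card ∧ CA C1 m L A ∧ B ⊆ S ∧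
        Real.exp (-(4000 * m) / 400000) * (C1 * Real.exp ((1 / 2 + eta) * (2 * (4000 * m)))) ≤ B.card ∧
        ∀ I ∈ B, R I ⊆ A ×ˢ A ∧ Real.exp (-2 * (4000 * m) / 400000) * (A.card : ℝ) ^ 2 ≤ C1 * (R I).card ∧ ∀ z ∈ R I, ⌊κ * IR.om w (X I) * z.1⌋ - ⌊κ * IR.om w (X I) * z.2⌋ ∈ V I

/-- **Row AHL** (THE PURE STATEMENT, end of the pure part; SHORT-MEDIUM; from AHK, BFI): `theorem AHL_proof (h1 : AHK_stmt) (h2 : BFI_stmt) : HAL_stmt`. `C1`, `V` from AHK. `Q` = the `k ∈ W` for which there are `w, κ, Y` with `k/L ≤ w ≤ (k+1)/L`, `1/2 ≤ κ ≤ 2`, `GY C m Y` and a sum `> e^(-p/10^6)`. `|w| ≤ (|k| + 1)/L ≤ 1/16`. Choose `w k`, `κ k`, `A k`, `B k`, `R k` (AHK; arbitrary for `k ∉ Q`, e.g. `Classical.choice`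
with `if`). They satisfy `BDT C1 m L Q ..` (the fields `s0`, `s1`, `l2` for `C ≤ C1`; `w1`: `GW C m L W`, `Q ⊆ W` and `C ≤ C1` give `GW C1 m L Q`). BFI: `#Q ≤ e^((1/2 - 1/4000)p)` for `m ≥ m0(C1)`. -/
def AHL_stmt : Prop := HAL_stmt

end

end Pool.Agent.HH
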